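import Pool.Agent.TH375.KL.Linear
import Pool.Agent.TH375.KL.FamSeries

set_option autoImplicit false

/-!
# The Tauberian Tate averages for almost all surfaces of a four-parameter family

Let `g ∈ ℤ[x₁, x₂, x₃]`.  For `a ∈ ℤ³` and `s ∈ ℤ` let `S(a, s)` be the affine surface
`g(x) + a·x + s = 0` and `#S(a, s)(𝔽_p)` the number of its points over `𝔽_p`.  If `deg g = d ≥ 2`, the projective
closure `V` of `S(a, s)` in `ℙ³` is a surface of degree `d` whose section `D` with the plane at infinity does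
not depend on `(a, s)`, and if `V` has good reduction at `p` then
`b_p(V) = (#S(a, s)(𝔽_p) - p²) + (#D(𝔽_p) - 1)`.

We prove that for all but `O((N + z²) H³ / K)` of the `N H³` pairs `(a, s)` of a box
`∑_{p ≤ T} (#S(a, s)(𝔽_p) - p²) / p · log p` is at most `√K √T (log₂ T + 1)^{5/2}` in absolute value for all `T ≤ z`
simultaneously.
-/

namespace Pool.Agent.Results.MP_4589ac_nt.AlmostAllSurfaces

open Finset

/-- the number of points over `𝔽_p` of the affine surface `g(x) + a·x + s = 0` -/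
noncomputable def pts (p : ℕ) (g : MvPolynomial (Fin 3) ℤ) (a : Fin 3 → ℤ) (s : ℤ) : ℕ :=
  {u : Fin 3 → ZMod p | MvPolynomial.aeval u g + ∑ i, (a i : ZMod p) * u i +
    (s : ZMod p) = 0}.ncard

/-- **The Tauberian averages for almost all surfaces of a four-parameter family** -/
theorem result : ∃ C : ℝ, 0 < C ∧ ∀ (g : MvPolynomial (Fin 3) ℤ) (A : Fin 3 → ℤ) (M : ℤ)
    (H N z : ℕ), z ≤ H → ∀ K : ℝ, 0 < K →
    ({q : (Fin 3 → ℤ) × ℤ | (∀ i, A i < q.1 i ∧ q.1 i ≤ A i + H) ∧ M < q.2 ∧ q.2 ≤ M + N ∧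
      ∃ T : ℕ, 1 ≤ T ∧ T ≤ z ∧ K * (T * ((Nat.log 2 T : ℝ) + 1) ^ 5) <
        (∑ p ∈ (range (T + 1)).filter Nat.Prime,
          ((pts p g q.1 q.2 : ℝ) - (p : ℝ) ^ 2) / p * Real.log p) ^ 2}.ncard : ℝ) ≤
      C * (N + (z : ℝ) ^ 2) * (H : ℝ) ^ 3 / K := by
  obtain ⟨C, hC, h1⟩ := TH375.KL.few_scales_fam
  refine ⟨C * 8, by positivity, ?_⟩
  intro g A M H N z hz K hK
  have h2 := h1 (Fin 3 → ℤ) (TH375.KL.box A H) (fun a => TH375.KL.dev2 (n := 3) g 1 a)
    (fun a p t u _ h => TH375.KL.dev2_per g 1 (fun i => by simp) h) ((2 * (H : ℝ)) ^ 3)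
    (by positivity) M N z ?_ K hK
  · refine le_trans (le_of_eq ?_) (h2.trans (le_of_eq (by ring)))
    congr 2
    ext q
    rw [Set.mem_ofPred_eq, Set.mem_ofPred_eq]
    have h3 : q.1 ∈ TH375.KL.box A H ↔ ∀ i, A i < q.1 i ∧ q.1 i ≤ A i + H := by
      unfold TH375.KL.box
      rw [Fintype.mem_piFinset]
      exact forall_congr' fun i => mem_Ioc
    rw [h3]
    refine and_congr_right fun _ => and_congr_right fun _ => and_congr_right fun _ =>
      exists_congr fun T => and_congr_right fun _ => and_congr_right fun _ => ?_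
    have h4 : ∑ p ∈ (range (T + 1)).filter Nat.Prime,
        ((pts p g q.1 q.2 : ℝ) - (p : ℝ) ^ 2) / p * Real.log p =
        ∑ p ∈ TH375.KL.Prm T, (TH375.KL.dev2 (n := 3) g 1 q.1 p q.2 -
          TH375.KL.mv (TH375.KL.dev2 (n := 3) g 1 q.1) p) * Real.log p := by
      unfold TH375.KL.Prm
      refine sum_congr rfl fun p hp => ?_
      rw [mem_filter] at hp
      have : Fact p.Prime := ⟨hp.2⟩
      rw [TH375.KL.mv_dev2 1 g q.1 hp.2, sub_zero]
      unfold TH375.KL.dev2 pts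
      rw [TH375.KL.Rn_eq_ncard, mul_one, pow_one]
    rw [h4]
  · intro p hp hpz
    exact TH375.KL.sum_V2_box 1 g A hp (hpz.trans hz)

end Pool.Agent.Results.MP_4589ac_nt.AlmostAllSurfaces
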