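import Pool.Agent.TH129.EM.Div5

/-!
# The Tauberian Tate conjecture over the subfields of a Galois extension, and divisions

`X` is a smooth projective variety over a number field `K`, `b₀ v` the trace of Frobenius on
`H^{2m}(X)` at the prime `v` of `K`, and `b F w` the trace at the prime `w` of a number field `F ⊇ K`;
for `m = 1` the conjecture, for `X` over `F`, says that

  `(1/T) ∑_{q_w ≤ T} (b F w) log q_w / q_w → rank NS(X/F)`.

Let `M/K` be a finite Galois extension and `W` a rational representation of `Gal(M/K)`, for instance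
`W = NS(X/M) ⊗ ℚ`, so that `rank NS(X/F) = dim W^{Gal(M/F)}` for `K ⊆ F ⊆ M`.  Call `f` on `Gal(M/K)` a
division function if `f(x) = f(y)` whenever `x` and `y` generate conjugate subgroups.

* The conjecture holds over all `F ⊆ M` with `Gal(M/F)` cyclic if and only if
  `(1/T) ∑_{q_v ≤ T} f(Frob_v) b₀(v) log q_v / q_v → (1/|Gal(M/K)|) ∑ f(x) tr(x | W)` for all division
  functions `f`, that is, `b₀(v) / q_v` is in the mean `tr(C | W)` over the primes with Frobenius in the
  division `C`; and then it holds over all `F ⊆ M`.  The averages over these `F` converge if and only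
  if the averages for the division functions converge.
* The same for logarithmic averages.
* If the `L`-functions of `H^{2m}(X)` over the `F` with `Gal(M/F)` cyclic have a meromorphic
  continuation to a neighbourhood of the point `m + 1`, then the logarithmic averages for the division
  functions converge; if the orders are those predicted by Tate for these `F`, the limits are those
  above; and if the limits are those above, then every `L`-function over a field `F ⊆ M` with a
  continuation to a neighbourhood of `m + 1` has the order predicted by Tate.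

The definitions are in `Pool.Agent.TH129.EM.DivDefs`, `Pool.Agent.W353.EF.Defs` (`IsFrobenius`,
`OrderOver`) and `Pool.Agent.W353.TD.Defs` (`IsFrobeniusElement`).
-/

set_option autoImplicit false

open Filter Topology NumberField IsDedekindDomain

namespace Pool.Agent.Results.MP_4589ac_nt.FrobeniusDivisions

open Pool.Agent.TH129.EM (IsTraceOn avg logAvg IsDivisionFunction traceMean fixedDim galSub
  DivisionLaw)
open Pool.Agent.W353.TD (IsFrobeniusElement)
open Pool.Agent.W353.EF (OrderOver)

theorem result (K : Type) [Field K] [NumberField K] (l d m N : ℕ) (hm : m ≤ d)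
    (X : Set (MvPolynomial (Fin l) (𝓞 K)))
    (M : IntermediateField K (AlgebraicClosure K)) [FiniteDimensional K M] [IsGalois K M]
    (b₀ : HeightOneSpectrum (𝓞 K) → ℝ) (hb₀ : IsTraceOn X d m N b₀)
    (b : ∀ F : IntermediateField K (AlgebraicClosure K), HeightOneSpectrum (𝓞 F) → ℝ)
    (hb : ∀ (F : IntermediateField K (AlgebraicClosure K)) [NumberField F], F ≤ M →
      IsTraceOn X d m N (b F))
    (σ : HeightOneSpectrum (𝓞 K) → Gal(AlgebraicClosure K/K))
    (hσ : ∀ v, IsFrobeniusElement v (σ v))
    (W : Type) [AddCommGroup W] [Module ℚ W] [FiniteDimensional ℚ W]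
    (ρ : Representation ℚ (M ≃ₐ[K] M) W) :
    -- the averages of the conjecture
    DivisionLaw M ρ (fun F _ => avg m (b F))
      (fun f => avg m fun v => f ((σ v).restrictNormal M) * b₀ v) ∧
    -- logarithmic averages
    DivisionLaw M ρ (fun F _ => logAvg m (b F))
      (fun f => logAvg m fun v => f ((σ v).restrictNormal M) * b₀ v) ∧
    (∀ (f : (M ≃ₐ[K] M) → ℝ) (r : ℝ),
      Tendsto (avg m fun v => f ((σ v).restrictNormal M) * b₀ v) atTop (𝓝 r) →
      Tendsto (logAvg m fun v => f ((σ v).restrictNormal M) * b₀ v) atTop (𝓝 r)) ∧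
    -- orders at `m + 1`
    ((∀ F : IntermediateField K (AlgebraicClosure K), F ≤ M → IsCyclic (galSub M F) →
        ∃ k : ℤ, OrderOver X d (2 * m) N F k) →
      ∀ f : (M ≃ₐ[K] M) → ℝ, IsDivisionFunction f → ∃ r : ℝ,
        Tendsto (logAvg m fun v => f ((σ v).restrictNormal M) * b₀ v) atTop (𝓝 r)) ∧
    ((∀ F : IntermediateField K (AlgebraicClosure K), F ≤ M → IsCyclic (galSub M F) →
        OrderOver X d (2 * m) N F (-(fixedDim ρ (galSub M F) : ℤ))) →
      ∀ f : (M ≃ₐ[K] M) → ℝ, IsDivisionFunction f →
        Tendsto (logAvg m fun v => f ((σ v).restrictNormal M) * b₀ v) atTop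
          (𝓝 (traceMean ρ f))) ∧
    ((∀ f : (M ≃ₐ[K] M) → ℝ, IsDivisionFunction f →
        Tendsto (logAvg m fun v => f ((σ v).restrictNormal M) * b₀ v) atTop
          (𝓝 (traceMean ρ f))) →
      ∀ F : IntermediateField K (AlgebraicClosure K), F ≤ M → ∀ k : ℤ,
        OrderOver X d (2 * m) N F k → k = -(fixedDim ρ (galSub M F) : ℤ)) := by
  refine ⟨Pool.Agent.TH129.EM.avg_law hm hb₀ hb hσ ρ, Pool.Agent.TH129.EM.logAvg_law hm hb₀ hb hσ ρ,
    fun f r hr => ?_, fun h f hf => Pool.Agent.TH129.EM.order_lim hm hσ hb₀ h hf,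
    fun h f hf => Pool.Agent.TH129.EM.order_rep hm hσ hb₀ ρ h hf,
    fun h F hFM k hk => Pool.Agent.TH129.EM.rep_order hm hσ hb₀ ρ h hFM hk⟩
  exact Pool.Agent.TH129.EM.weight_log hm hb₀ f hr

end Pool.Agent.Results.MP_4589ac_nt.FrobeniusDivisions
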