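import Pool.Agent.TH129.EM.Tate2

/-!
# The Tauberian Tate conjecture with logarithmic averages

`V` is a smooth projective variety over a number field `K`, given by homogeneous polynomials over
`𝓞 K`, `b_v` is the trace of Frobenius on `H²(V)`, for almost all primes `v`, and `L(s)` the
`L`-function of `H²(V)`.  The conjecture asks for the limit of `(1/T) ∑_{q_v ≤ T} b_v log q_v / q_v`.

* If `(s - 2)^r L(s)` has a limit different from zero as `s → 2+`, `r` real, then the logarithmic
  averages `(1 / log T) ∑_{q_v ≤ T} b_v log q_v / q_v²` have the limit `r`.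
* If `L` has a meromorphic continuation to a neighbourhood of the point `2`, then the logarithmic
  averages have a limit, the order of the pole.  So, given such a continuation, the order of the pole
  is `rank NS(V/K)` if and only if the logarithmic averages tend to `rank NS(V/K)`.
* If the averages of the conjecture have a limit, the logarithmic averages have the same limit.  So
  the conjecture for `V` implies that the pole has order `rank NS(V/K)`, given a continuation.

Nothing is assumed about other points of the line `Re s = 2`; the averages of the conjecture itself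
need that `L` is regular and not zero there.
-/

set_option autoImplicit false

open Filter Topology NumberField IsDedekindDomain Polynomial

namespace Pool.Agent.Results.MP_4589ac_nt.LogarithmicAverages

open Pool.Agent.TH129.EM (points norm IsFrobenius LFun IsTraceSystem logAverage average)

theorem result {n : ℕ} {K : Type} [Field K] [NumberField K] (V : Set (MvPolynomial (Fin n) (𝓞 K)))
    (d N : ℕ) (B : HeightOneSpectrum (𝓞 K) → ℝ[X]) (b : HeightOneSpectrum (𝓞 K) → ℝ)
    (h : IsTraceSystem V d N B b) :
    (∀ r A : ℝ, A ≠ 0 → Tendsto (fun ε : ℝ => ε ^ r * LFun B (2 + ε)) (𝓝[>] 0) (𝓝 A) →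
      Tendsto (logAverage b) atTop (𝓝 r)) ∧
    (∀ Λ : ℂ → ℂ, MeromorphicAt Λ 2 → (∀ᶠ ε : ℝ in 𝓝[>] 0, Λ (2 + ε) = LFun B (2 + ε)) →
      ∃ m : ℤ, meromorphicOrderAt Λ 2 = m ∧ Tendsto (logAverage b) atTop (𝓝 (-(m : ℝ)))) ∧
    ∀ ρ : ℝ, Tendsto (average b) atTop (𝓝 ρ) → Tendsto (logAverage b) atTop (𝓝 ρ) :=
  ⟨h.law.1, h.law.2, fun _ hρ => Pool.Agent.TH129.EM.average_log hρ⟩

end Pool.Agent.Results.MP_4589ac_nt.LogarithmicAverages
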