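import Pool.Agent.TH375.KL.JacobiWeights

set_option autoImplicit false

/-!
# The averages of Nagao and Rosen–Silverman for products of curves

For `f ∈ ℤ[X]` let `t_p(f) = ∑_{x mod p} (f(x) / p)`.  If `C` is the smooth projective curve with affine equation
`y² = f(x)`, `f` of odd degree, then at the odd primes of good reduction of the equation the trace of Frobenius on
`H¹(C)` is `-t_p(f)`.  For `V = C_1^{n_1} × … × C_s^{n_s}` the Künneth formula gives the trace of Frobenius on `H²(V)`,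
`∑ n_i p + ∑ (n_i choose 2) a_i² + ∑_{i < j} n_i n_j a_i a_j`, with `a_i` the traces on `H¹(C_i)`.

The polynomials `f_i` run over the families `g_i + c_{i0} + c_{i1} X + … + c_{i,m-1} X^{m-1}`, with `m ≥ 4` and
`c_{ij}` in intervals of length `N`.  It is shown that for almost all tuples the averages of the Tate
conjecture for divisors have the size `∑ n_i + ∑ (n_i choose 2)`, the rank of `NS(V)` if the Jacobians of the
`C_i` have no endomorphisms except `ℤ` and no homomorphisms between them.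
-/

namespace Pool.Agent.Results.MP_4589ac_nt.ProductsOfCurves

open Finset

/-- the character sum `t_p(f)`; the affine curve `y² = f(x)` has `p + t_p(f)` points over `𝔽_p`, `p` odd -/
def charSum (p : ℕ) (f : Polynomial ℤ) : ℤ := ∑ x ∈ range p, jacobiSym (f.eval (x : ℤ)) p

/-- the member `g + c₀ + c₁ X + … + c_{m-1} X^{m-1}` of the family -/
noncomputable def member {m : ℕ} (g : Polynomial ℤ) (c : Fin m → ℤ) : Polynomial ℤ :=
  g + ∑ j : Fin m, Polynomial.C (c j) * Polynomial.X ^ (j : ℕ)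

/-- the trace of Frobenius at `p` on `H²` of `C_1^{n_1} × … × C_s^{n_s}`, if the `a_i` are the traces on `H¹(C_i)` -/
noncomputable def trace {s : ℕ} (n : Fin s → ℕ) (p : ℕ) (a : Fin s → ℤ) : ℝ :=
  (∑ i, (n i : ℝ)) * p + ∑ i, ((n i).choose 2 : ℝ) * (a i : ℝ) ^ 2 +
    ∑ i, ∑ j ∈ univ.filter (i < ·), (n i : ℝ) * n j * (a i * a j)

/-- the number `∑ n_i + ∑ (n_i choose 2)` -/
def genericRank {s : ℕ} (n : Fin s → ℕ) : ℕ := ∑ i, n i + ∑ i, (n i).choose 2

section
open TH375.KL

/-- the exponents of the monomial `x_i x_j` -/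
def expo {s : ℕ} (q : Fin s × Fin s) (l : Fin s) : ℕ :=
  (if l = q.1 then 1 else 0) + if l = q.2 then 1 else 0

theorem prod_expo {s : ℕ} (q : Fin s × Fin s) (x : Fin s → ℝ) :
    ∏ l, x l ^ expo q l = x q.1 * x q.2 := by
  unfold expo
  simp only [pow_add]
  rw [prod_mul_distrib]
  congr 1
  · have h : ∀ l, x l ^ (if l = q.1 then 1 else 0) = if l = q.1 then x l else 1 := by
      intro l
      split_ifs <;> simp
    simp only [h]
    rw [prod_ite_eq' univ q.1 x]
    simp
  · have h : ∀ l, x l ^ (if l = q.2 then 1 else 0) = if l = q.2 then x l else 1 := by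
      intro l
      split_ifs <;> simp
    simp only [h]
    rw [prod_ite_eq' univ q.2 x]
    simp

theorem gm_two : gm 2 = 1 := by
  rw [gm, gm]
  norm_num

theorem prod_gm {s : ℕ} (q : Fin s × Fin s) :
    ∏ l, gm (expo q l) = if q.1 = q.2 then 1 else 0 := by
  split_ifs with h
  · refine prod_eq_one fun l _ => ?_
    unfold expo
    rw [← h]
    split_ifs
    · exact gm_two
    · rw [add_zero, gm]
  · refine prod_eq_zero (mem_univ q.1) ?_
    unfold expo
    rw [if_pos rfl, if_neg h, add_zero, gm]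

theorem expo_le {s : ℕ} (q : Fin s × Fin s) (l : Fin s) : expo q l ≤ 2 := by
  unfold expo
  split_ifs <;> omega

/-- the coefficients -/
noncomputable def coef {s : ℕ} (n : Fin s → ℕ) (q : Fin s × Fin s) : ℝ :=
  if q.1 = q.2 then ((n q.1).choose 2 : ℝ) else if q.1 < q.2 then (n q.1 : ℝ) * n q.2 else 0

theorem trace_eq {s : ℕ} (n : Fin s → ℕ) {p : ℕ} (hp : 0 < p) (a : Fin s → ℤ) :
    trace n p (fun i => -a i) / p - genericRank n =
      ∑ q : Fin s × Fin s, coef n q *
        ((a q.1 : ℝ) / Real.sqrt p * ((a q.2 : ℝ) / Real.sqrt p) -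
          if q.1 = q.2 then 1 else 0) := by
  have hp0 : (0 : ℝ) < p := by exact_mod_cast hp
  have hss : Real.sqrt p * Real.sqrt p = p := Real.mul_self_sqrt hp0.le
  have h0 : ∀ u v : ℝ, u / Real.sqrt p * (v / Real.sqrt p) = u * v / p := by
    intro u v
    rw [div_mul_div_comm, hss]
  simp only [h0]
  rw [Fintype.sum_prod_type]
  have h1 : ∀ i : Fin s, ∑ j : Fin s, coef n (i, j) *
      ((a i : ℝ) * a j / p - if i = j then 1 else 0) =
      ((n i).choose 2 : ℝ) * ((a i : ℝ) ^ 2 / p - 1) +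
        ∑ j ∈ univ.filter (i < ·), (n i : ℝ) * n j * (a i * a j) / p := by
    intro i
    have h2 : ∀ j : Fin s, coef n (i, j) * ((a i : ℝ) * a j / p - if i = j then 1 else 0) =
        (if i = j then ((n i).choose 2 : ℝ) * ((a i : ℝ) ^ 2 / p - 1) else 0) +
          if i < j then (n i : ℝ) * n j * (a i * a j) / p else 0 := by
      intro j
      unfold coef
      simp only
      by_cases hij : i = j
      · subst hij
        rw [if_pos rfl, if_pos rfl, if_pos rfl, if_neg (lt_irrefl _)]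
        ring
      · rw [if_neg hij, if_neg hij, if_neg hij]
        split_ifs
        · ring
        · ring
    simp only [h2]
    rw [sum_add_distrib, sum_ite_eq univ i, if_pos (mem_univ _), sum_filter]
  simp only [h1]
  rw [sum_add_distrib]
  unfold trace genericRank
  push_cast
  simp only [neg_sq, neg_mul_neg, mul_sub, mul_one, sum_sub_distrib]
  rw [add_div, add_div, mul_div_cancel_right₀ _ hp0.ne', sum_div, sum_div]
  simp only [sum_div, mul_div_assoc]
  ring

end

/-- **The averages of the Tate conjecture for divisors, for almost all products of curves** -/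
theorem result (s m : ℕ) (hm : 4 ≤ m) (n : Fin s → ℕ) : ∃ C : ℝ, 0 < C ∧
    ∀ (g : Fin s → Polynomial ℤ) (A : Fin s → Fin m → ℤ) (N z : ℕ), z ^ 2 ≤ N → ∀ K : ℝ, 0 < K →
    ({c : Fin s → Fin m → ℤ | (∀ i j, A i j < c i j ∧ c i j ≤ A i j + N) ∧
      ∃ T : ℕ, 1 ≤ T ∧ T ≤ z ∧ K * (T * ((Nat.log 2 T : ℝ) + 1) ^ 5) <
        (∑ p ∈ (range (T + 1)).filter fun p => p.Prime ∧ p ≠ 2,
          (trace n p (fun i => -charSum p (member (g i) (c i))) / p - genericRank n) *
            Real.log p) ^ 2}.ncard : ℝ) ≤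
      C * (N : ℝ) ^ (s * m) / K := by
  classical
  have hjm := fun q : Fin s × Fin s => TH375.KL.joint_moments 1 m s 3 (expo q)
    (fun l => by have := expo_le q l; omega)
  choose C₁ hC₁ hj using hjm
  set V : ℝ := 1 + (∑ q, coef n q ^ 2) * (s * s) with hV
  have hV0 : 0 ≤ (∑ q, coef n q ^ 2) * ((s : ℝ) * s) :=
    mul_nonneg (sum_nonneg fun q _ => sq_nonneg _) (by positivity)
  have hV1 : 1 ≤ V := by linarith
  have hsC : 0 ≤ ∑ q, C₁ q := sum_nonneg fun q _ => (hC₁ q).le
  refine ⟨(1 + ∑ q, C₁ q) * V, by positivity, ?_⟩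
  intro g A N z hzN K hK
  have hKV : 0 < K / V := by positivity
  have hj1 := fun q => hj q (fun p => Real.log p) 1 zero_le_one le_rfl (fun p hp => by
    rw [one_mul, abs_of_nonneg (Real.log_nonneg (by exact_mod_cast hp.one_le))]) 2
    (fun _ => TH375.KL.jwt) (fun _ p hp hp2 => TH375.KL.jwt_good hp2)
    (fun i => TH375.KL.gg (g i)) (fun _ (j : Fin m) => MvPolynomial.X 0 ^ (j : ℕ))
    (fun _ α hα => by
      rw [Fin.sum_univ_one] at hα
      refine ⟨⟨α 0, by omega⟩, ?_⟩
      rw [Fin.prod_univ_one]) A N z hzN (K / V) hKV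
  have hPrm : ∀ x : ℕ, (TH375.KL.Prm x).filter (· ≠ 2) =
      (range (x + 1)).filter fun p => p.Prime ∧ p ≠ 2 := by
    intro x
    unfold TH375.KL.Prm
    rw [filter_filter]
  obtain ⟨hfin, _⟩ := TH375.KL.card_tuples A N
  set E : Fin s × Fin s → Set (Fin s → Fin m → ℤ) := fun q =>
    {c : Fin s → Fin m → ℤ | (∀ i j, A i j < c i j ∧ c i j ≤ A i j + N) ∧
      ∃ x : ℕ, 1 ≤ x ∧ x ≤ z ∧ K / V * TH375.KL.thr x <
        (∑ p ∈ (TH375.KL.Prm x).filter (· ≠ 2),
        (∏ i, TH375.KL.fam TH375.KL.jwt (TH375.KL.gg (g i))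
          (fun (j : Fin m) => MvPolynomial.X 0 ^ (j : ℕ)) (expo q i) p (c i) -
          ∏ i, TH375.KL.gm (expo q i)) * Real.log p) ^ 2} with hE
  have hsub : {c : Fin s → Fin m → ℤ | (∀ i j, A i j < c i j ∧ c i j ≤ A i j + N) ∧
      ∃ T : ℕ, 1 ≤ T ∧ T ≤ z ∧ K * (T * ((Nat.log 2 T : ℝ) + 1) ^ 5) <
        (∑ p ∈ (range (T + 1)).filter fun p => p.Prime ∧ p ≠ 2,
          (trace n p (fun i => -charSum p (member (g i) (c i))) / p - genericRank n) *
            Real.log p) ^ 2} ⊆ ⋃ q, E q := by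
    rintro c ⟨hc, T, hT1, hTz, hT⟩
    rw [Set.mem_iUnion]
    by_contra hcon
    push Not at hcon
    set S : Fin s × Fin s → ℝ := fun q => ∑ p ∈ (range (T + 1)).filter fun p => p.Prime ∧ p ≠ 2,
      ((charSum p (member (g q.1) (c q.1)) : ℝ) / Real.sqrt p *
        ((charSum p (member (g q.2) (c q.2)) : ℝ) / Real.sqrt p) -
          if q.1 = q.2 then 1 else 0) * Real.log p with hS
    have h1 : ∑ p ∈ (range (T + 1)).filter (fun p => p.Prime ∧ p ≠ 2),
          (trace n p (fun i => -charSum p (member (g i) (c i))) / p - genericRank n) *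
            Real.log p = ∑ q, coef n q * S q := by
      rw [hS]
      simp only [mul_sum]
      rw [sum_comm]
      refine sum_congr rfl fun p hp => ?_
      rw [mem_filter] at hp
      rw [trace_eq n hp.2.1.pos, sum_mul]
      exact sum_congr rfl fun q _ => by ring
    rw [h1] at hT
    have h2 : ∀ q, S q ^ 2 ≤ K / V * TH375.KL.thr T := by
      intro q
      by_contra h3
      refine hcon q ⟨hc, T, hT1, hTz, ?_⟩
      rw [hPrm]
      have h4 : ∑ p ∈ (range (T + 1)).filter (fun p => p.Prime ∧ p ≠ 2),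
          (∏ i, TH375.KL.fam TH375.KL.jwt (TH375.KL.gg (g i))
          (fun (j : Fin m) => MvPolynomial.X 0 ^ (j : ℕ)) (expo q i) p (c i) -
          ∏ i, TH375.KL.gm (expo q i)) * Real.log p = S q := by
        rw [hS]
        refine sum_congr rfl fun p hp => ?_
        rw [mem_filter] at hp
        have : Fact p.Prime := ⟨hp.2.1⟩
        have h5 : ∀ i, TH375.KL.fam TH375.KL.jwt (TH375.KL.gg (g i))
          (fun (j : Fin m) => MvPolynomial.X 0 ^ (j : ℕ)) (expo q i) p (c i) =
            ((charSum p (member (g i) (c i)) : ℝ) / Real.sqrt p) ^ expo q i := by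
          intro i
          unfold TH375.KL.fam
          rw [dif_pos hp.2.1, TH375.KL.sum_jwt]
          rfl
        simp only [h5]
        rw [prod_expo q (fun i => (charSum p (member (g i) (c i)) : ℝ) / Real.sqrt p), prod_gm]
      rw [h4]
      exact not_le.1 h3
    have h3 : (∑ q, coef n q * S q) ^ 2 ≤ (∑ q, coef n q ^ 2) * ∑ q, S q ^ 2 :=
      sum_mul_sq_le_sq_mul_sq _ _ _
    have h4 : ∑ q, S q ^ 2 ≤ (s * s) * (K / V * TH375.KL.thr T) := by
      refine (sum_le_sum fun q _ => h2 q).trans (le_of_eq ?_)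
      rw [sum_const, card_univ, Fintype.card_prod, Fintype.card_fin, nsmul_eq_mul]
      push_cast
      ring
    have hthr : 0 ≤ TH375.KL.thr T := by
      unfold TH375.KL.thr
      positivity
    have h5 : (∑ q, coef n q ^ 2) * ((s * s) * (K / V * TH375.KL.thr T)) ≤
        K * TH375.KL.thr T := by
      have h6 : (∑ q, coef n q ^ 2) * ((s * s) * (K / V * TH375.KL.thr T)) =
          ((∑ q, coef n q ^ 2) * (s * s)) * (K / V) * TH375.KL.thr T := by ring
      rw [h6]
      refine mul_le_mul_of_nonneg_right ?_ hthr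
      have h7 : (∑ q, coef n q ^ 2) * ((s : ℝ) * s) ≤ V := by linarith
      calc (∑ q, coef n q ^ 2) * ((s : ℝ) * s) * (K / V) ≤ V * (K / V) :=
            mul_le_mul_of_nonneg_right h7 hKV.le
        _ = K := by field_simp
    have h6 := h3.trans ((mul_le_mul_of_nonneg_left h4
      (sum_nonneg fun q _ => sq_nonneg (coef n q))).trans h5)
    exact absurd hT (not_lt.2 h6)
  have hEfin : (⋃ q, E q).Finite := Set.finite_iUnion fun q => hfin.subset fun c hc => hc.1
  have h1 : ((⋃ q, E q).ncard : ℝ) ≤ ∑ q, ((E q).ncard : ℝ) := by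
    exact_mod_cast Set.ncard_iUnion_le_of_fintype E
  refine (Nat.cast_le.2 (Set.ncard_le_ncard hsub hEfin)).trans (h1.trans ?_)
  have h2 : ∑ q, ((E q).ncard : ℝ) ≤ ∑ q, C₁ q * (N : ℝ) ^ (s * m) / (K / V) :=
    sum_le_sum fun q _ => hj1 q
  refine h2.trans ?_
  rw [← sum_div, ← sum_mul, div_div_eq_mul_div]
  refine div_le_div_of_nonneg_right ?_ hK.le
  have h3 : (0 : ℝ) ≤ (N : ℝ) ^ (s * m) * V := by positivity
  calc (∑ q, C₁ q) * (N : ℝ) ^ (s * m) * V = (∑ q, C₁ q) * ((N : ℝ) ^ (s * m) * V) := by ring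
    _ ≤ (1 + ∑ q, C₁ q) * ((N : ℝ) ^ (s * m) * V) :=
        mul_le_mul_of_nonneg_right (by linarith) h3
    _ = _ := by ring

end Pool.Agent.Results.MP_4589ac_nt.ProductsOfCurves
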